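import Pool.Agent.U416.Bal.Emb

set_option autoImplicit false

/-!
# Diagonal Ramsey colourings on more than `3 ^ k` vertices are balanced and universal

A colouring of the edges of the complete graph on `Fin n` is a graph `G` (red) together with its
complement (blue); it has no monochromatic `K_k` if `G` and `Gᶜ` have no clique with `k` vertices.
For the constants `c` between `2.7` and `3.1` below (all of them smaller than the best known upper
bound for `limsup R(k,k) ^ (1/k)`) and large `k`, a colouring without monochromatic `K_k` on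
`n ≥ c ^ k` vertices

1. is balanced: for every set `Y` of at least `n ^ (1 - ε)` vertices all but at most `n ^ (1 - ε)`
   vertices `x` have between `p |Y|` and `(1 - p) |Y|` red neighbours in `Y`;
2. is universal: it contains every colouring of the complete graph on at most `k / q` vertices.

So `log c` bounds the growth rate of the Ramsey numbers restricted to the colourings which are not
balanced in this sense, or which omit some pattern on at most `k / q` vertices.

Proof: the two-reservoir book theorem of the starting library, with the bounds for `R(k,l)` obtained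
from it, for pairs of sets `X`, `Y` such that the vertices of `X` have many blue neighbours in `Y`
(in most cases with only one reservoir, the other one being a new vertex), and a greedy embedding.
-/

open Finset

namespace Pool.Agent.Results.MP_28724c_co.BalancedAndUniversal

/-- The colouring of the complete graph on `Fin n` with red graph `G` has no monochromatic `K_k`. -/
def NoMono {n : ℕ} (G : SimpleGraph (Fin n)) (k : ℕ) : Prop := G.CliqueFree k ∧ Gᶜ.CliqueFree k

open Classical in
/-- The number of neighbours of `x` in `Y`. -/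
noncomputable def degIn {n : ℕ} (G : SimpleGraph (Fin n)) (x : Fin n) (Y : Finset (Fin n)) : ℕ :=
  (Y.filter fun y => G.Adj x y).card

open Classical in
/-- For every set `Y` of at least `n ^ (1 - ε)` vertices all but at most `n ^ (1 - ε)` vertices have
between `p |Y|` and `(1 - p) |Y|` neighbours in `Y`. -/
def Balanced {n : ℕ} (G : SimpleGraph (Fin n)) (ε p : ℝ) : Prop :=
  ∀ Y : Finset (Fin n), (n : ℝ) ^ (1 - ε) ≤ Y.card →
    (((univ : Finset (Fin n)).filter fun x =>
      ¬ (p * Y.card ≤ (degIn G x Y : ℝ) ∧ (degIn G x Y : ℝ) ≤ (1 - p) * Y.card)).card : ℝ) ≤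
      (n : ℝ) ^ (1 - ε)

open Pool.Agent.U416.Bal H110R2

theorem noCl {n : ℕ} {G : SimpleGraph (Fin n)} {k : ℕ} (h : G.CliqueFree k) :
    NoCl G k univ := fun T _ hT => h T hT

theorem degIn_eq {n : ℕ} (G : SimpleGraph (Fin n)) (x : Fin n) (Y : Finset (Fin n)) :
    degIn G x Y = (nb G x Y).card := by
  unfold degIn nb
  congr

theorem balanced {c ε p : ℝ} (h : Light c ε 0 p) : ∃ K : ℕ, ∀ k : ℕ, K ≤ k → ∀ (n : ℕ)
    (G : SimpleGraph (Fin n)), NoMono G k → c ^ k ≤ n → Balanced G ε p := by
  obtain ⟨K, hK⟩ := both h
  refine ⟨K, fun k hk n G hG hn Y hY => ?_⟩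
  refine hK k hk n G (noCl hG.1) (noCl hG.2) hn Y hY _ ?_
  intro x hx
  have := (mem_filter.mp hx).2
  rwa [degIn_eq] at this

theorem univ_of {c ε p : ℝ} (h : Light c ε 0 p) (hc : 1 < c) (hε0 : 0 < ε) (hε1 : ε ≤ 1)
    (hp0 : 0 < p) (hp : p ≤ 1 / 2) {q : ℕ} (hq : Real.log (1 / p) < q * (ε * Real.log c)) :
    ∃ K : ℕ, ∀ k : ℕ, K ≤ k → ∀ (n : ℕ) (G : SimpleGraph (Fin n)), NoMono G k → c ^ k ≤ n →
      ∀ t : ℕ, q * t ≤ k → ∀ H : SimpleGraph (Fin t), Nonempty (H ↪g G) := by
  obtain ⟨K, hK⟩ := universal h hc hε0 hε1 hp0 hp hq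
  exact ⟨K, fun k hk n G hG hn => hK k hk n G (noCl hG.1) (noCl hG.2) hn⟩

/-- the condition on the constants, with exponents cleared -/
theorem logs {c p ε : ℝ} {q a b : ℕ} (hc : 1 < c) (hp : 0 < p) (hb : 0 < b)
    (he : (a : ℝ) / b ≤ q * ε) (h : (1 / p) ^ b < c ^ a) :
    Real.log (1 / p) < q * (ε * Real.log c) := by
  have hb' : (0 : ℝ) < b := by exact_mod_cast hb
  have h1 := Real.log_lt_log (by positivity) h
  rw [Real.log_pow, Real.log_pow] at h1
  have h2 := mul_le_mul_of_nonneg_right he (Real.log_pos hc).le
  have h3 : Real.log (1 / p) < (a : ℝ) / b * Real.log c := by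
    rw [div_mul_eq_mul_div, lt_div_iff₀ hb']
    linarith
  linarith

/-- **Colourings without monochromatic `K_k` on many vertices.** -/
theorem result :
    -- balanced
    (∀ q ∈ ([(2.8, 0.001, 1 / 4), (3, 0.001, 3 / 8), (3.1, 0.001, 11 / 25),
        (2.7, 0.02, 1 / 10), (2.8, 0.056, 1 / 10), (3, 0.1, 3 / 20), (3.1, 0.105, 1 / 5)] :
        List (ℝ × ℝ × ℝ)),
      ∃ K : ℕ, ∀ k : ℕ, K ≤ k → ∀ (n : ℕ) (G : SimpleGraph (Fin n)), NoMono G k →
        q.1 ^ k ≤ n → Balanced G q.2.1 q.2.2) ∧
    -- universal
    (∀ q ∈ ([(2.7, 120), (2.8, 40), (3, 18), (3.1, 14)] : List (ℝ × ℕ)),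
      ∃ K : ℕ, ∀ k : ℕ, K ≤ k → ∀ (n : ℕ) (G : SimpleGraph (Fin n)), NoMono G k →
        q.1 ^ k ≤ n → ∀ t : ℕ, q.2 * t ≤ k → ∀ H : SimpleGraph (Fin t), Nonempty (H ↪g G)) := by
  constructor
  · intro q hq
    simp only [List.mem_cons, List.not_mem_nil, or_false] at hq
    rcases hq with rfl | rfl | rfl | rfl | rfl | rfl | rfl
    · exact balanced light4
    · exact balanced light5
    · exact balanced light6
    · exact balanced light0
    · exact balanced light1
    · exact balanced light2
    · exact balanced light3
  · intro q hq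
    simp only [List.mem_cons, List.not_mem_nil, or_false] at hq
    rcases hq with rfl | rfl | rfl | rfl
    · exact univ_of light0 (by norm_num) (by norm_num) (by norm_num) (by norm_num) (by norm_num)
        (logs (a := 12) (b := 5) (by norm_num) (by norm_num) (by norm_num) (by norm_num)
          (by norm_num))
    · exact univ_of light1 (by norm_num) (by norm_num) (by norm_num) (by norm_num) (by norm_num)
        (logs (a := 56) (b := 25) (by norm_num) (by norm_num) (by norm_num) (by norm_num)
          (by norm_num))
    · exact univ_of light2 (by norm_num) (by norm_num) (by norm_num) (by norm_num) (by norm_num)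
        (logs (a := 9) (b := 5) (by norm_num) (by norm_num) (by norm_num) (by norm_num)
          (by norm_num))
    · exact univ_of light3 (by norm_num) (by norm_num) (by norm_num) (by norm_num) (by norm_num)
        (logs (a := 29) (b := 20) (by norm_num) (by norm_num) (by norm_num) (by norm_num)
          (by norm_num))

end Pool.Agent.Results.MP_28724c_co.BalancedAndUniversal
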