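import Pool.Agent.U827.LD.Fin

set_option autoImplicit false

/-!
# Diagonal Ramsey numbers of colourings of bounded Littlestone dimension

A two-colouring of the edges of the complete graph on `Fin n` is a graph `G` (red) together with
its complement (blue); `NoMono G k`: there is no monochromatic `K_k`. The Littlestone dimension of
`G` (the model-theoretic tree rank, the stability rank of the edge relation) is the largest depth
of a complete binary tree whose inner nodes are labelled by vertices and whose leaves are labelled
by vertices, such that for every inner node with label `v` all leaves on one side of it are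
neighbours of `v` and all leaves on the other side are not; `LdimLe G t` says that it is at most
`t`. A graph with `n` vertices has dimension at most `log₂ n`, so for `t ≥ log₂ R(k,k)` this is no
restriction. `ldRamsey t k` is the least `n` such that every colouring of `K_n` of dimension at
most `t` has a monochromatic `K_k`.

We determine the growth of these restricted Ramsey numbers:
`log (ldRamsey t k) = (1 + o(1)) t log (k / t)` for `1 ≪ t ≪ k`. The upper bound
`n < ∑_{i ≤ t + 1} (a + b - 1 choose i)` interpolates between the polynomial bounds for stable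
graphs and the bound of Erdős and Szekeres: of the red and the blue neighbourhood of a vertex one
has smaller dimension. So for dimension at most `ε k` the growth rate is at most twice the binary
entropy of `ε / 2`; and every colouring without monochromatic `K_k` on at least `2 ^ (k / 2)`
vertices, in particular every extremal one, has dimension more than `0.08 k`. For the lower bound
we show that a random graph of edge probability `n ^ (- (1 + o(1)) / t)` has dimension at most `t`:
a tree of depth `r + s` contains a complete bipartite graph with sides `r` and `2 ^ s`.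
-/

namespace Pool.Agent.Results.MP_28724c_co.LittlestoneDimension

open Pool.Agent.U827.LD
open Filter Finset

/-- **Main result.** -/
theorem result :
    -- (1) the finite upper bound: Erdős-Szekeres for bounded Littlestone dimension
    (∀ (n a b t : ℕ) (G : SimpleGraph (Fin n)), G.CliqueFree (a + 1) → Gᶜ.CliqueFree (b + 1) →
      LdimLe G t → n < ∑ i ∈ range (t + 2), (a + b - 1).choose i) ∧
    -- (2) exact growth: `log (ldRamsey t k) = (1 + o(1)) t log (k / t)` for `1 ≪ t ≪ k`
    (∀ η : ℝ, 0 < η → ∃ A : ℕ, ∀ t k : ℕ, A ≤ t → A * t ≤ k →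
      |Real.log (ldRamsey t k) - t * Real.log ((k : ℝ) / t)| ≤
        η * (t * Real.log ((k : ℝ) / t))) ∧
    -- (3) growth rate for dimension at most `ε k`: at most twice the binary entropy of `ε / 2`,
    (∀ ε : ℝ, 0 < ε → ε ≤ 1 → ∀ k : ℕ, 2 ≤ k →
      Real.log (ldRamsey ⌊ε * k⌋₊ k) ≤ 2 * Real.binEntropy (ε / 2) * k + Real.log (2 / ε)) ∧
    -- and `(1 + o(1)) ε log (1 / ε)` for small `ε`
    (∀ η : ℝ, 0 < η → ∃ ε₀ : ℝ, 0 < ε₀ ∧ ∀ ε : ℝ, 0 < ε → ε ≤ ε₀ → ∀ᶠ k : ℕ in atTop,
      |Real.log (ldRamsey ⌊ε * k⌋₊ k) / k - ε * Real.log (1 / ε)| ≤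
        η * (ε * Real.log (1 / ε))) ∧
    -- (4) the full problem is the case `t ≥ log₂ R(k,k)`, for example `t ≥ 2 k`
    (∀ t k : ℕ, 2 ≤ k → (ramsey k ≤ 2 ^ (t + 1) ∨ 2 * k ≤ t) → ldRamsey t k = ramsey k) ∧
    -- (5) colourings on `exp (θ k)` vertices have dimension of order `k`
    (∀ θ ε : ℝ, 0 < ε → ε ≤ 1 → 2 * Real.binEntropy (ε / 2) < θ → ∀ᶠ k : ℕ in atTop,
      ∀ (n : ℕ) (G : SimpleGraph (Fin n)), NoMono G k → Real.exp (θ * k) ≤ n →
        ¬ LdimLe G ⌊ε * k⌋₊) ∧
    -- (6) colourings on `2 ^ (k / 2)` vertices and extremal colourings: dimension above `0.08 k`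
    (∀ᶠ k : ℕ in atTop, ∀ (n : ℕ) (G : SimpleGraph (Fin n)), NoMono G k →
      ((2 : ℝ) ^ ((k : ℝ) / 2) ≤ n ∨ n + 1 = ramsey k) →
        ¬ LdimLe G ⌊(2 / 25 : ℝ) * k⌋₊ ∧ LdimLe G (2 * k)) := by
  refine ⟨fun n a b t G h1 h2 h3 => lt_Sg a b t G h1 h2 h3, exact, linear_upper, linear_small,
    ?_, ?_, extremal⟩
  · rintro t k hk (h | h)
    · exact ldRamsey_eq hk h
    · exact ldRamsey_eq hk ((ramsey_le k (by omega)).trans
        (Nat.pow_le_pow_right (by norm_num) (by omega)))
  · intro θ ε h0 h1 h
    filter_upwards [large_dim θ ε h0 h1 h] with k hk n G hG hn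
    apply hk n G hG
    have : (0 : ℝ) ≤ n := Nat.cast_nonneg _
    linarith

end Pool.Agent.Results.MP_28724c_co.LittlestoneDimension
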