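import Mathlib
import Pool.Agent.U180.SR.Growth

/-!
# Diagonal Ramsey colourings with independent random colours

The colours of the edges of `K_N` are independent random variables; the law of the colour of every
edge is arbitrary and may depend on the edge, but each of the `q` colours has probability at least
`δ > 0` (`IsLaw δ p`). For two colours these are the random perturbations of arbitrary colourings:
a colouring (or a random colouring) is given, and then the colour of every edge is changed with
probability at least `δ` and at most `1 - δ`, independently. `Pr p P` is the probability of `P`.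

1. Let `a` be a colour and `ν` a probability measure on the vertices with `ν v ≤ N ^ (-s)`. With
   probability at least `1 - ε` there is a set of `(1 - ε) 2 s log N / E` vertices all of whose edges
   have colour `a`, where `E` is the mean of `- log (p e a)` for the edge `e` between two
   independent random vertices with law `ν`.
2. If the mean of `- log (p e a)` over all edges and all colours is `Λ`, there is a monochromatic set
   of `(1 - ε) 2 log N / Λ` vertices with probability at least `1 - ε`. If all colours have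
   probability `1 / q`, then `Λ = log q` and `2 log N / log q` is the size of the largest
   monochromatic set.
3. Let `noisyRamsey q δ θ k` be the least `N` such that all these random colourings of `K_N` contain
   a monochromatic `K_k` with probability at least `θ`; it is at most the Ramsey number. Its
   exponential growth rate is at least `(1/2) log q` and at most `maxCost q δ / 2`, half of the
   largest possible mean cost, for every `θ`. For two colours this is
   `(1/4) log (1 / (δ (1 - δ)))`.
4. So for `δ = 1 / q` the growth rate exists and is `(1/2) log q`, the value of the Erdős bound, and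
   the growth rates for `δ < 1 / q` converge to this value for `δ → 1 / q`.

Proof. Among the measures with a bounded density with respect to `ν` there is one whose potential
(the mean cost between a vertex and a random vertex) is, on its support, at most the energy of `ν`
plus `ε`: otherwise the vertices of large potential are given less weight, and the energy decreases
by a constant. For independent vertices with this law, all but boundedly many of the vertices have
a total cost to the others which is at most the expected one (second moment of the costs), and the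
sum of the indicators of these sets being monochromatic, divided by their probabilities, has
second moment `1 + o(1)` times the square of its expectation, since the weight of two sets with `j`
common vertices is at most `exp (j (1 - ε/4) s log N)`.
-/

open Filter Topology Finset

namespace Pool.Agent.Results.MP_28724c_co.NoisyColourings

open Pool.Agent.U180.SR

/-- **Diagonal Ramsey colourings with independent random colours.** -/
theorem result :
    -- 1. the largest set in one colour, for every measure on the vertices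
    (∀ q : ℕ, 2 ≤ q → ∀ δ s ε : ℝ, 0 < δ → 0 < s → 0 < ε → ε < 1 →
      ∃ N0 : ℕ, ∀ N ≥ N0, ∀ p : Edge N → Fin q → ℝ, IsLaw δ p → ∀ a : Fin q, ∀ ν : Fin N → ℝ,
        (∀ v, 0 ≤ ν v) → ∑ v, ν v = 1 → (∀ v, ν v ≤ (N : ℝ) ^ (-s)) →
        ∀ Λ : ℝ, En (cst p a) ν ≤ Λ →
          1 - ε ≤ Pr p (fun c => ∃ S : Finset (Fin N),
            (1 - ε) * (2 * s * Real.log N) / Λ ≤ (S.card : ℝ) ∧ MonoIn c a S)) ∧
    -- 2. the largest monochromatic set and the mean cost
    (∀ q : ℕ, 2 ≤ q → ∀ δ ε : ℝ, 0 < δ → 0 < ε → ε < 1 →
      ∃ N0 : ℕ, ∀ N ≥ N0, ∀ p : Edge N → Fin q → ℝ, IsLaw δ p →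
        ∀ Λ : ℝ, ∑ e, ∑ a, -Real.log (p e a) ≤ q * Λ * Fintype.card (Edge N) →
          1 - ε ≤ Pr p (fun c => ∃ (a : Fin q) (S : Finset (Fin N)),
            (1 - ε) * (2 * Real.log N) / Λ ≤ (S.card : ℝ) ∧ MonoIn c a S)) ∧
    -- 3. the growth rate for every `δ` and every threshold `θ` for the probability
    (∀ q : ℕ, 2 ≤ q → ∀ δ θ η : ℝ, 0 < δ → δ ≤ 1 / q → 0 < θ → θ < 1 → 0 < η →
      ∃ K : ℕ, ∀ k ≥ K,
        (∀ N : ℕ, Real.exp ((maxCost q δ / 2 + η) * k) ≤ N → N ∈ NoisySet q δ θ k) ∧
        Real.log q / 2 ≤ Real.log (noisyRamsey q δ θ k) / k ∧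
        Real.log (noisyRamsey q δ θ k) / k ≤ maxCost q δ / 2 + η) ∧
    (∀ δ : ℝ, 0 < δ → δ < 1 → maxCost 2 δ = 1 / 2 * Real.log (1 / (δ * (1 - δ)))) ∧
    -- it is at most the Ramsey number
    (∀ q : ℕ, ∀ δ θ : ℝ, θ ≤ 1 → ∀ k N : ℕ,
      (∀ c : Edge N → Fin q, ∃ (a : Fin q) (S : Finset (Fin N)), S.card = k ∧ MonoIn c a S) →
      noisyRamsey q δ θ k ≤ N) ∧
    -- 4. the growth rate for `δ = 1 / q`, and for `δ` near `1 / q`
    (∀ q : ℕ, 2 ≤ q → ∀ θ : ℝ, 0 < θ → θ < 1 →
      Tendsto (fun k : ℕ => Real.log (noisyRamsey q (1 / q) θ k) / k) atTop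
        (𝓝 (Real.log q / 2))) ∧
    (∀ q : ℕ, 2 ≤ q → ∀ η : ℝ, 0 < η → ∃ δ₀ : ℝ, 0 < δ₀ ∧ δ₀ < 1 / q ∧
      ∀ δ : ℝ, δ₀ ≤ δ → δ ≤ 1 / q → ∀ θ : ℝ, 0 < θ → θ < 1 →
        ∀ᶠ k : ℕ in atTop, |Real.log (noisyRamsey q δ θ k) / k - Real.log q / 2| ≤ η) := by
  have h3 : ∀ q : ℕ, 2 ≤ q → ∀ δ θ η : ℝ, 0 < δ → δ ≤ 1 / q → 0 < θ → θ < 1 → 0 < η →
      ∃ K : ℕ, ∀ k ≥ K,
        (∀ N : ℕ, Real.exp ((maxCost q δ / 2 + η) * k) ≤ N → N ∈ NoisySet q δ θ k) ∧
        Real.log q / 2 ≤ Real.log (noisyRamsey q δ θ k) / k ∧
        Real.log (noisyRamsey q δ θ k) / k ≤ maxCost q δ / 2 + η := by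
    intro q hq δ θ η hδ hδq hθ0 hθ1 hη
    obtain ⟨K1, hK1⟩ := upper q hq hδ hδq (half_pos hη) hθ1
    obtain ⟨K2, hK2⟩ := lower q hq hδq hθ0
    -- `exp x + 1 ≤ exp (x + η k / 2)` for large `k`
    obtain ⟨K3, hK3⟩ := exists_nat_ge (2 / η * Real.log 2)
    have hq2 : (2 : ℝ) ≤ q := by exact_mod_cast hq
    refine ⟨max (max K1 K2) (max K3 1), fun k hk => ?_⟩
    have hk1 : K1 ≤ k := le_trans (le_trans (le_max_left _ _) (le_max_left _ _)) hk
    have hk2 : K2 ≤ k := le_trans (le_trans (le_max_right _ _) (le_max_left _ _)) hk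
    have hk3 : K3 ≤ k := le_trans (le_trans (le_max_left _ _) (le_max_right _ _)) hk
    have hk4 : 1 ≤ k := le_trans (le_trans (le_max_right _ _) (le_max_right _ _)) hk
    have hkpos : (0 : ℝ) < k := by exact_mod_cast hk4
    have hall : ∀ N : ℕ, Real.exp ((maxCost q δ / 2 + η / 2) * k) ≤ N → N ∈ NoisySet q δ θ k :=
      fun N hN => hK1 k hk1 N hN
    set x : ℝ := (maxCost q δ / 2 + η / 2) * k with hx
    have hmem : ⌈Real.exp x⌉₊ ∈ NoisySet q δ θ k := hall _ (Nat.le_ceil _)
    have hne : (NoisySet q δ θ k).Nonempty := ⟨_, hmem⟩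
    have hinf : noisyRamsey q δ θ k ∈ NoisySet q δ θ k := Nat.sInf_mem hne
    have hlow := hK2 k hk2 _ hinf
    have hRpos : (0 : ℝ) < noisyRamsey q δ θ k := lt_trans (Real.exp_pos _) hlow
    refine ⟨?_, ?_, ?_⟩
    · intro N hN
      apply hall N
      refine le_trans (Real.exp_le_exp.mpr ?_) hN
      rw [hx]
      apply mul_le_mul_of_nonneg_right _ hkpos.le
      linarith
    · rw [le_div_iff₀ hkpos]
      have := Real.log_le_log (Real.exp_pos _) hlow.le
      rwa [Real.log_exp] at this
    · rw [div_le_iff₀ hkpos]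
      have h5 : noisyRamsey q δ θ k ≤ ⌈Real.exp x⌉₊ := Nat.sInf_le hmem
      have h6 : (noisyRamsey q δ θ k : ℝ) ≤ Real.exp x + 1 := by
        have h7 : ((noisyRamsey q δ θ k : ℕ) : ℝ) ≤ (⌈Real.exp x⌉₊ : ℝ) := by exact_mod_cast h5
        have h8 := Nat.ceil_lt_add_one (Real.exp_pos x).le
        linarith
      have hx0 : 0 ≤ x := by
        -- the number `noisyRamsey` is at least `exp 0`, so the cost is nonnegative
        have hmc : 0 ≤ maxCost q δ := by
          unfold maxCost
          have hq0 : (0 : ℝ) < q := by linarith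
          apply div_nonneg _ hq0.le
          have hδ1 : δ < 1 := by
            have : (1 : ℝ) / q ≤ 1 / 2 := one_div_le_one_div_of_le (by norm_num) hq2
            linarith
          have h1 : Real.log δ < 0 := Real.log_neg hδ hδ1
          have h2 : Real.log (1 - ((q : ℝ) - 1) * δ) ≤ 0 := by
            apply Real.log_nonpos
            · have : ((q : ℝ) - 1) * δ ≤ ((q : ℝ) - 1) * (1 / q) :=
                mul_le_mul_of_nonneg_left hδq (by linarith)
              have h3 : ((q : ℝ) - 1) * (1 / q) ≤ 1 := by
                rw [mul_one_div, div_le_one hq0]; linarith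
              linarith
            · have : 0 ≤ ((q : ℝ) - 1) * δ := mul_nonneg (by linarith) hδ.le
              linarith
          nlinarith
        rw [hx]
        apply mul_nonneg _ hkpos.le
        linarith
      have h9 : Real.exp x + 1 ≤ Real.exp ((maxCost q δ / 2 + η) * k) := by
        have e1 : (maxCost q δ / 2 + η) * k = x + η / 2 * k := by rw [hx]; ring
        rw [e1, Real.exp_add]
        have e2 : (2 : ℝ) ≤ Real.exp (η / 2 * k) := by
          have h10 : 2 / η * Real.log 2 ≤ k := hK3.trans (by exact_mod_cast hk3)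
          have h11 : η / 2 * (2 / η * Real.log 2) = Real.log 2 := by field_simp
          have h12 : Real.log 2 ≤ η / 2 * k := by
            rw [← h11]; exact mul_le_mul_of_nonneg_left h10 (by positivity)
          have h13 := Real.exp_le_exp.mpr h12
          rwa [Real.exp_log (by norm_num)] at h13
        have e3 : 1 ≤ Real.exp x := Real.one_le_exp hx0
        nlinarith
      have h12 := Real.log_le_log hRpos (h6.trans h9)
      rwa [Real.log_exp] at h12
  refine ⟨fun q hq δ s ε h1 h2 h3 h4 => core q hq h1 h2 h3 h4,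
    fun q hq δ ε h1 h2 h3 => mean_cost q hq h1 h2 h3, h3, maxCost_half, ?_, ?_, ?_⟩
  · intro q δ θ hθ k N h
    apply Nat.sInf_le
    intro p hp
    rw [pr_sure hp.sum_eq h]
    exact hθ
  · intro q hq θ hθ0 hθ1
    have hq0 : (0 : ℝ) < q := by exact_mod_cast (by omega : 0 < q)
    rw [Metric.tendsto_atTop]
    intro η hη
    obtain ⟨K, hK⟩ := h3 q hq (1 / q) θ (η / 2) (by positivity) le_rfl hθ0 hθ1 (half_pos hη)
    refine ⟨K, fun k hk => ?_⟩
    obtain ⟨_, h5, h6⟩ := hK k hk
    rw [maxCost_uniform (by omega)] at h6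
    rw [Real.dist_eq, abs_lt]
    constructor <;> linarith
  · intro q hq η hη
    have hq0 : (0 : ℝ) < q := by exact_mod_cast (by omega : 0 < q)
    have ht := maxCost_tendsto (q := q) (by omega)
    rw [Metric.tendsto_nhds_nhds] at ht
    obtain ⟨r, hr, hball⟩ := ht η hη
    refine ⟨1 / q - min (r / 2) (1 / (2 * q)), ?_, ?_, ?_⟩
    · have h1 : min (r / 2) (1 / (2 * (q : ℝ))) ≤ 1 / (2 * q) := min_le_right _ _
      have h2 : 1 / (2 * (q : ℝ)) < 1 / q := by
        apply one_div_lt_one_div_of_lt hq0
        linarith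
      linarith
    · have : 0 < min (r / 2) (1 / (2 * (q : ℝ))) := lt_min (by linarith) (by positivity)
      linarith
    · intro δ hδ hδq θ hθ0 hθ1
      have h1 : min (r / 2) (1 / (2 * (q : ℝ))) ≤ 1 / (2 * q) := min_le_right _ _
      have h1' : min (r / 2) (1 / (2 * (q : ℝ))) ≤ r / 2 := min_le_left _ _
      have h2 : 1 / (2 * (q : ℝ)) < 1 / q := by
        apply one_div_lt_one_div_of_lt hq0
        linarith
      have hδ0 : 0 < δ := by linarith
      have hd : dist δ (1 / q) < r := by
        rw [Real.dist_eq, abs_lt]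
        constructor <;> linarith
      have h4 := hball hd
      rw [Real.dist_eq, abs_lt] at h4
      obtain ⟨K, hK⟩ := h3 q hq δ θ (η / 2) hδ0 hδq hθ0 hθ1 (half_pos hη)
      filter_upwards [eventually_ge_atTop K] with k hk
      obtain ⟨_, h5, h6⟩ := hK k hk
      rw [abs_le]
      constructor <;> linarith

end Pool.Agent.Results.MP_28724c_co.NoisyColourings
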