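import Pool.Agent.U215.AC.Lex
import Pool.Agent.U215.AC.Growth

/-!
# How many states does a finite automaton need to compute a colouring without large homogeneous sets?

The vertices are the `N = b ^ m` words of length `m` over an ordered alphabet with `b ≥ 2` letters. A
colouring of the pairs of vertices, with any set of colours, is *computed by an automaton with `w`
states* if the colour of a pair `x < y` (in the lexicographic order) is a function of the state of a
finite automaton with `w` states that has read the columns `(x_1, y_1), …, (x_m, y_m)`. The states may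
be chosen anew for every length `m`, so that all colourings are computed with `w ≤ b ^ (2 m + 1)`
states, and `w` measures the complexity of the colouring. (If the graph is given by an automaton
which accepts both `(x, y)` and `(y, x)`, or neither, then the order plays no role.)

1. There is always a homogeneous set with `2 ^ n` elements, `n = ⌊m / K w⌋`, where
   `K w = 12 T ^ 5 (w ^ 2 + 1)` and `T = w ^ (⌊√(2 w)⌋ + 1)`, so that `K w = w ^ (O (√w))`.
2. Hence a colouring without homogeneous set of `k` vertices has `N ≤ (2 k) ^ (K w ⌈log₂ b⌉)` vertices.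
3. *A lower bound for the complexity of the Ramsey colourings.* Let `0 < δ < 1`. For all large `m`, all
   colourings computed with at most `(δ² / 3200) (log m / log log m) ^ 2` states have a homogeneous set
   with `2 ^ (m ^ (1 - δ))` elements. So all colourings of the `N = 2 ^ m` words whose homogeneous sets
   have size `O (log N)`, or `(log N) ^ C`, or even `exp ((log N) ^ (1 - δ))`, need more states.
4. *Upper bounds.* For every prime `p` there are two-colourings of the binary words of length
   `m = (p ^ 2 - 1) r`, `r` arbitrary, computed with `2 p ^ 3` states, whose homogeneous sets have at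
   most `p ^ (2 (p - 1) r)` elements, i.e. `N ^ (2 log₂ p / (p + 1))`. So the exponent `1 / K w` in
   part 1, which is at least `w ^ (- O (√w))`, is at most `w ^ (- 1 / 3 + o (1))`.
5. For `r = 1`, `p` states suffice: `√(m + 1)` states are enough for a colouring whose homogeneous
   sets have at most `(m + 1) ^ √(m + 1)` elements.
6. If the automaton is reversible (all columns act as permutations of the states; the automata of part
   5 are reversible), then part 1 holds with `w ^ 4` in place of `K w`.
7. If the lengths of all cycles of the transformations of the states given by pairs of words divide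
   `d`, then part 1 holds with `12 (d w) ^ 3 (w ^ 2 + 1)` in place of `K w`, for instance with
   `12 w ^ 3 (w ^ 2 + 1)` for counter-free automata (`d = 1`). So only automata with cycles of many
   different lengths can need more than a polynomial number `K w`.

Proof of 1. Let `φ(x, y)` be the transformation of the set of states given by a pair of words. By the
pigeonhole principle there are words `u < v` of length `w² + 1` with `φ(u, u) = φ(v, v)`. Every
transformation has an idempotent power with exponent at most `T`, since the different lengths of its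
cycles have the sum at most `w`, so that there are at most `√(2 w)` of them (`exists_exponent`). Hence
there are words `A < B` of the same length, at most `3 T ^ 4 (w² + 1)`, such that
`φ(A, A) = φ(B, B) = E`, `φ(A, B) = F` and `φ(B, A) = F'` are idempotent and `E` is neutral for `F` and
`F'`. Encode the bit `0` by `A B` and the bit `1` by `B A`, the sequence of bits `s` by the word of the
palindrome `s s'` (`s'` is the reversed sequence), and repeat this word `q ≤ T` times, where
`(F F') ^ q` is idempotent. If `s < t`, then the product along one copy is a word in `F F'` and `F' F`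
which begins and ends with `F F'`, so it is a power of `F F'`, and the product along all copies is
`(F F') ^ q`, the same for all pairs. (The coding by palindromes in idempotent pairs of words is taken
from `Pool.Agent.U613.AC`, where the exponents are `w!`.)

Proof of 4. The colour of two words of length `p ^ 2 - 1` says whether their Hamming distance is
divisible by `p` (Frankl and Wilson; the two bounds come from the polynomial method over the field with
`p` elements and over the rational numbers). The colouring in part 4 is the lexicographic power.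
-/

set_option autoImplicit false

namespace Pool.Agent.Results.MP_28724c_co.StatesOfRamseyColourings

/-- The state of the automaton with the transition function `δ` which is in the state `q` and reads
the columns `(x_1, y_1), (x_2, y_2), …`. -/
def run {α Q : Type} (δ : Q → α → α → Q) : Q → List α → List α → Q
  | q, a :: x, b :: y => run δ (δ q a b) x y
  | q, _, _ => q

/-- The colouring `c` of the pairs `x < y` (lexicographic order) of words of length `m` is computed by
a finite automaton with at most `w` states. -/
def Automatic {α κ : Type} [LT α] (w m : ℕ) (c : List α → List α → κ) : Prop :=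
  ∃ (Q : Type) (_ : Fintype Q) (δ : Q → α → α → Q) (q₀ : Q) (g : Q → κ), Fintype.card Q ≤ w ∧
    ∀ x y : List α, x.length = m → y.length = m → x < y → c x y = g (run δ q₀ x y)

/-- The same with an automaton in which every column acts as a permutation of the states. -/
def Reversible {α κ : Type} [LT α] (w m : ℕ) (c : List α → List α → κ) : Prop :=
  ∃ (Q : Type) (_ : Fintype Q) (δ : Q → α → α → Q) (q₀ : Q) (g : Q → κ), Fintype.card Q ≤ w ∧
    (∀ a b : α, Function.Bijective fun q => δ q a b) ∧
      ∀ x y : List α, x.length = m → y.length = m → x < y → c x y = g (run δ q₀ x y)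

/-- The same with an automaton in which the lengths of all cycles of the transformations
`q ↦ run δ q x y` of the states, where `x` and `y` are words of the same length, divide `d`: if a power
of the transformation fixes the state `q`, then its `d`-th power does. -/
def Cyclic {α κ : Type} [LT α] (d w m : ℕ) (c : List α → List α → κ) : Prop :=
  ∃ (Q : Type) (_ : Fintype Q) (δ : Q → α → α → Q) (q₀ : Q) (g : Q → κ), Fintype.card Q ≤ w ∧
    (∀ x y : List α, x.length = y.length → ∀ (q : Q) (n : ℕ), 1 ≤ n →
      (fun q => run δ q x y)^[n] q = q → (fun q => run δ q x y)^[d] q = q) ∧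
      ∀ x y : List α, x.length = m → y.length = m → x < y → c x y = g (run δ q₀ x y)

/-- `S` is a set of words of length `m`, and all pairs of elements of `S` have the same colour. -/
def Homogeneous {α κ : Type} [LT α] (m : ℕ) (c : List α → List α → κ) (S : Finset (List α)) : Prop :=
  (∀ x ∈ S, x.length = m) ∧ ∃ k : κ, ∀ x ∈ S, ∀ y ∈ S, x < y → c x y = k

/-- the constant -/
def K (w : ℕ) : ℕ := 12 * ((w ^ (Nat.sqrt (2 * w) + 1)) ^ 5 * (w ^ 2 + 1))

theorem run_eq {α Q : Type} (δ : Q → α → α → Q) (x : List α) : ∀ (q : Q) (y : List α),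
    run δ q x y = Pool.Agent.U215.AC.run δ q x y := by
  induction x with
  | nil => intro q y; cases y <;> rfl
  | cons a x ih =>
    intro q y
    cases y with
    | nil => rfl
    | cons b y => exact ih _ _

theorem K_eq (w : ℕ) : K w = Pool.Agent.U215.AC.K w := rfl

/-- Homogeneous sets (part 1). -/
theorem upper (w m n : ℕ) (α κ : Type) [Fintype α] [LinearOrder α] (c : List α → List α → κ)
    (hα : 2 ≤ Fintype.card α) (hc : Automatic w m c) (hm : K w * n ≤ m) :
    ∃ S : Finset (List α), S.card = 2 ^ n ∧ Homogeneous m c S := by
  obtain ⟨Q, _, δ, q₀, g, hQ, hc⟩ := hc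
  obtain ⟨S, hS, hcard, k, hk⟩ := Pool.Agent.U215.AC.upper hα hQ δ q₀ g c (m := m) (n := n)
    (by rw [← K_eq]; exact hm) (fun x y hx hy hxy => by rw [hc x y hx hy hxy, run_eq])
  exact ⟨S, hcard, hS, k, hk⟩

/-- (1) Homogeneous sets of polynomial size. (2) The Ramsey numbers are polynomial. (3) Colourings
without homogeneous sets of size `2 ^ (m ^ (1 - δ))` need many states. (4) Colourings with few states
and small homogeneous sets. (5) The same with `√(m + 1)` states. (6) Reversible automata.
(7) Automata in which the lengths of all cycles divide `d`. -/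
theorem result :
    (∀ (w m n : ℕ) (α κ : Type) [Fintype α] [LinearOrder α] (c : List α → List α → κ),
      2 ≤ Fintype.card α → Automatic w m c → K w * n ≤ m →
        ∃ S : Finset (List α), S.card = 2 ^ n ∧ Homogeneous m c S) ∧
    (∀ (w m k : ℕ) (α κ : Type) [Fintype α] [LinearOrder α] (c : List α → List α → κ),
      2 ≤ Fintype.card α → Automatic w m c → 1 ≤ k →
        (∀ S : Finset (List α), Homogeneous m c S → S.card < k) →
          Fintype.card α ^ m ≤ (2 * k) ^ (K w * Nat.clog 2 (Fintype.card α))) ∧
    (∀ δ : ℝ, 0 < δ → δ < 1 → ∃ m₀ : ℕ, ∀ m : ℕ, m₀ ≤ m → ∀ w : ℕ,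
      (w : ℝ) ≤ δ ^ 2 / 3200 * (Real.log m / Real.log (Real.log m)) ^ 2 →
        ∀ (α κ : Type) [Fintype α] [LinearOrder α] (c : List α → List α → κ),
          2 ≤ Fintype.card α → Automatic w m c →
            ∃ S : Finset (List α), (2 : ℝ) ^ ((m : ℝ) ^ (1 - δ)) ≤ S.card ∧ Homogeneous m c S) ∧
    (∀ p r : ℕ, p.Prime → ∃ c : List Bool → List Bool → Bool,
      Automatic (2 * p ^ 3) ((p ^ 2 - 1) * r) c ∧ ∀ S : Finset (List Bool),
        Homogeneous ((p ^ 2 - 1) * r) c S → S.card ≤ p ^ (2 * (p - 1) * r)) ∧
    (∀ p : ℕ, p.Prime → ∃ c : List Bool → List Bool → Bool, Reversible p (p ^ 2 - 1) c ∧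
      ∀ S : Finset (List Bool), Homogeneous (p ^ 2 - 1) c S → S.card ≤ p ^ (2 * (p - 1))) ∧
    (∀ (w m n : ℕ) (α κ : Type) [Fintype α] [LinearOrder α] (c : List α → List α → κ),
      2 ≤ Fintype.card α → Reversible w m c → w ^ 4 * n ≤ m →
        ∃ S : Finset (List α), S.card = 2 ^ n ∧ Homogeneous m c S) ∧
    (∀ (d w m n : ℕ) (α κ : Type) [Fintype α] [LinearOrder α] (c : List α → List α → κ),
      2 ≤ Fintype.card α → 1 ≤ d → Cyclic d w m c → 12 * ((d * w) ^ 3 * (w ^ 2 + 1)) * n ≤ m →
        ∃ S : Finset (List α), S.card = 2 ^ n ∧ Homogeneous m c S) := by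
  refine ⟨upper, ?_, ?_, ?_, ?_, ?_, ?_⟩
  · intro w m k α κ _ _ c hα hc hk hsmall
    have hk2 : k ≤ 2 ^ Nat.clog 2 k := Nat.le_pow_clog (by norm_num) k
    have hlt : m < K w * Nat.clog 2 k := by
      by_contra hcon
      rw [not_lt] at hcon
      obtain ⟨S, hcard, hS⟩ := upper w m (Nat.clog 2 k) α κ c hα hc hcon
      have := hsmall S hS
      omega
    have hk3 : 2 ^ Nat.clog 2 k ≤ 2 * k := by
      rcases Nat.eq_or_lt_of_le hk with h | h
      · rw [← h]; simp
      · have h4 := Nat.pow_pred_clog_lt_self (b := 2) (by norm_num) h
        have h5 : 0 < Nat.clog 2 k := Nat.clog_pos (by norm_num) h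
        obtain ⟨j, hj⟩ : ∃ j, Nat.clog 2 k = j + 1 := ⟨Nat.clog 2 k - 1, by omega⟩
        rw [hj, Nat.pred_succ] at h4
        rw [hj, pow_succ]
        omega
    calc Fintype.card α ^ m ≤ Fintype.card α ^ (K w * Nat.clog 2 k) :=
          Nat.pow_le_pow_right (by omega) hlt.le
      _ ≤ (2 ^ Nat.clog 2 (Fintype.card α)) ^ (K w * Nat.clog 2 k) :=
          Nat.pow_le_pow_left (Nat.le_pow_clog (by norm_num) _) _
      _ = (2 ^ Nat.clog 2 k) ^ (K w * Nat.clog 2 (Fintype.card α)) := by
          rw [← pow_mul, ← pow_mul]; congr 1; ring
      _ ≤ (2 * k) ^ (K w * Nat.clog 2 (Fintype.card α)) := Nat.pow_le_pow_left hk3 _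
  · intro δ hδ hδ1
    obtain ⟨m₀, hm₀⟩ := Filter.eventually_atTop.1 (Pool.Agent.U215.AC.div_K_ge hδ hδ1)
    refine ⟨m₀, fun m hm w hw α κ _ _ c hα hc => ?_⟩
    have hw1 : 1 ≤ w := by
      obtain ⟨Q, _, δ, q₀, g, hQ, _⟩ := hc
      exact (Fintype.card_pos_iff.2 ⟨q₀⟩).trans_le hQ
    have h1 := hm₀ m hm w hw1 hw
    obtain ⟨S, hcard, hS⟩ := upper w m (m / K w) α κ c hα hc (Nat.mul_div_le m (K w))
    refine ⟨S, ?_, hS⟩
    rw [hcard]
    push_cast
    rw [← Real.rpow_natCast]
    exact Real.rpow_le_rpow_of_exponent_le (by norm_num) (by rw [K_eq]; exact_mod_cast h1)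
  · intro p r hp
    have : NeZero p := ⟨hp.ne_zero⟩
    have hk : 0 < p ^ 2 - 1 := by
      have := Nat.pow_le_pow_left hp.two_le 2
      omega
    refine ⟨fun x y => Pool.Agent.U215.AC.lout false (run
      (Pool.Agent.U215.AC.lstep (Pool.Agent.U215.AC.fstep p) 0 (Pool.Agent.U215.AC.fout p))
      (Sum.inr (⟨0, hk⟩, 0, false)) x y), ⟨Pool.Agent.U215.AC.LSt Bool (ZMod p) (p ^ 2 - 1),
      inferInstance, _, _, _, Pool.Agent.U215.AC.card_LSt hp, fun x y _ _ _ => rfl⟩, ?_⟩
    rintro S ⟨hS, b, hb⟩
    have h1 := Pool.Agent.U215.AC.small (Pool.Agent.U215.AC.fstep p) 0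
      (Pool.Agent.U215.AC.fout p) false b hk (Pool.Agent.U215.AC.small_block hp b) r S hS
      (fun x hx y hy hxy => by rw [← run_eq]; exact hb x hx y hy hxy)
    rwa [← pow_mul] at h1
  · intro p hp
    have : NeZero p := ⟨hp.ne_zero⟩
    refine ⟨fun x y => Pool.Agent.U215.AC.fout p (run (Pool.Agent.U215.AC.fstep p) 0 x y),
      ⟨ZMod p, inferInstance, _, _, _, (ZMod.card p).le, ?_, fun x y _ _ _ => rfl⟩, ?_⟩
    · intro a b
      unfold Pool.Agent.U215.AC.fstep
      by_cases hab : a = b
      · simp only [hab, if_true]
        exact Function.bijective_id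
      · simp only [hab, if_false]
        exact (Equiv.addRight (1 : ZMod p)).bijective
    · rintro S ⟨hS, b, hb⟩
      exact Pool.Agent.U215.AC.small_block hp b S hS
        (fun x hx y hy hxy => by rw [← run_eq]; exact hb x hx y hy hxy)
  · intro w m n α κ _ _ c hα hc hm
    obtain ⟨Q, _, δ, q₀, g, hQ, hδ, hc⟩ := hc
    obtain ⟨S, hS, hcard, k, hk⟩ := Pool.Agent.U215.AC.reversible hα hQ δ
      (fun a b => (hδ a b).injective) q₀ g c hm
      (fun x y hx hy hxy => by rw [hc x y hx hy hxy, run_eq])
    exact ⟨S, hcard, hS, k, hk⟩
  · intro d w m n α κ _ _ c hα hd hc hm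
    obtain ⟨Q, _, δ, q₀, g, hQ, hδ, hc⟩ := hc
    obtain ⟨S, hS, hcard, k, hk⟩ := Pool.Agent.U215.AC.upper_periods hα hd hQ δ
      (fun x y hxy => by simpa only [run_eq] using hδ x y hxy) q₀ g c hm
      (fun x y hx hy hxy => by rw [hc x y hx hy hxy, run_eq])
    exact ⟨S, hcard, hS, k, hk⟩

end Pool.Agent.Results.MP_28724c_co.StatesOfRamseyColourings
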